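import Pool.Agent.R399.TM.Avg

/-!
# Zeros at and near the central point for twists by Dirichlet characters

Let `ρ` be an irreducible Artin representation of `ℚ` of degree `m ≤ 3` which is automorphic and
cuspidal (all odd ones of degree two, all with solvable image of degree two, all those induced from a
character of a real quadratic or a totally real cubic field: for the last two kinds of induced
representations, among them the symplectic ones of Serre's example, everything is proved here).  For the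
primitive Dirichlet characters `χ` of conductor `q ≤ Q` prime to the conductor of `ρ`, about `Q²` of
them, `ρ ⊗ χ` is an irreducible representation of the Galois group of a finite extension of `ℚ`,
unitary for all but `O(Q)` of the `χ`.  Statement (ii) of the problem says `L(1/2, ρ ⊗ χ) ≠ 0`.
We know of no better bound than the trivial one, `O(log q)`, for the order of `L(s, ρ ⊗ χ)` at `1/2`
for almost all `χ`, or on average, if the degree is three.

We prove, with no hypothesis on zeros,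

* (1) the number of the `χ` for which `L(s, ρ ⊗ χ)` has a zero of order at least `k` at `1/2` is at
  most `C (1 + log Q)^B Q² exp(-k/500)`, for all `k` and `Q`: the frequency of central zeros of order
  `k` decays exponentially;
* (2) the average order of `L(s, ρ ⊗ χ)` at any point `1/2 + it` is at most
  `C (log (1 + log Q) + log (2 + |t|))`;
* (3) the average number of zeros of `L(s, ρ ⊗ χ)` in the disc `|s - 1/2 - it| ≤ r` is at most
  `C (r log Q + log (1 + log Q) + log (2 + |t|))`, for all `0 ≤ r ≤ 1/100` and all `t`; so up to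
  `log log Q / log Q` the number of low lying zeros is `O(log log Q)` on average;
* (4) for every `a` there is `K` such that for all but `K Q² / (1 + log Q)^a` of the `χ` the order of
  `L(s, ρ ⊗ χ)` at `1/2` is at most `K log (2 + log Q)`.

The families are given as in the starting result `CuspidalTwists` (`IsFamily`): an Euler product of
degree `m` whose twists have the analytic properties of automorphic L-functions, or the induction of
a Hecke character (of finite order for Artin representations) of a totally real field of degree `m`,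
where nothing is assumed.

Proof.  `L(s) M(s)`, `M` a mollifier of length `Q^(1/3)`, is in mean square close to a constant
between `1/2` and `1` to the right of `1/2 + O(1/log Q)` (large sieve, functional equation, Gaussian
kernel), and of mean square `Q^(O(a)) (log Q)^B` at distance `a` from the critical line (three lines theorem);
dividing by the polynomial of the zeros in the disc one finds that `k` zeros are possible only with
frequency `exp(-c k)`.
-/

set_option autoImplicit false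

open Complex

namespace Pool.Agent.Results.MP_3b6604_nt.AverageCentralZeros

open Pool.Agent.Results.MP_77948b_nt.CuspidalTwists (IsFamily)

/-- The number of the primitive Dirichlet characters `χ` of conductor `q`, `2 ≤ q ≤ Q`, `q` prime to
`N`, which have the property `S q χ`. -/
noncomputable def count (N Q : ℕ) (S : (q : ℕ) → DirichletCharacter ℂ q → Prop) : ℕ :=
  ∑ q ∈ (Finset.Icc 2 Q).filter (fun q => Nat.Coprime q N),
    {χ : DirichletCharacter ℂ q | χ.IsPrimitive ∧ S q χ}.ncard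

/-- The sum of `f q χ` over the primitive Dirichlet characters `χ` of conductor `q`, `2 ≤ q ≤ Q`, `q`
prime to `N`. -/
noncomputable def sumOver (N Q : ℕ) (f : (q : ℕ) → DirichletCharacter ℂ q → ℕ) : ℝ :=
  ∑ q ∈ (Finset.Icc 2 Q).filter (fun q => Nat.Coprime q N),
    ∑ᶠ χ ∈ {χ : DirichletCharacter ℂ q | χ.IsPrimitive}, (f q χ : ℝ)

/-- The entire function `F` has at least `k` zeros, counted with multiplicity, in the disc with centre
`w` and radius `r`: it is `(s - z_1) ... (s - z_k) H(s)` with `H` entire and the `z_j` in the disc. -/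
def HasZeros (F : ℂ → ℂ) (k : ℕ) (w : ℂ) (r : ℝ) : Prop :=
  ∃ (z : ℕ → ℂ) (H : ℂ → ℂ), Differentiable ℂ H ∧ (∀ j < k, ‖z j - w‖ ≤ r) ∧
    ∀ s, F s = (∏ j ∈ Finset.range k, (s - z j)) * H s

lemma pt_half (t : ℝ) : Pool.Agent.R399.TW.pt (1 / 2) t = 1 / 2 + t * I := by
  unfold Pool.Agent.R399.TW.pt
  push_cast
  rfl

/-- **Theorem.** -/
theorem result (m N : ℕ) (hm : m ≤ 3) (L : (q : ℕ) → DirichletCharacter ℂ q → ℂ → ℂ)
    (hL : IsFamily m N L) :
    (∀ (q : ℕ) (χ : DirichletCharacter ℂ q), 2 ≤ q → Nat.Coprime q N → χ.IsPrimitive →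
      Differentiable ℂ (L q χ) ∧ ∀ s : ℂ, analyticOrderAt (L q χ) s ≠ ⊤) ∧
    (∃ C B : ℝ, ∀ Q k : ℕ, 1 ≤ Q →
      (count N Q (fun q χ => k ≤ analyticOrderNatAt (L q χ) (1 / 2)) : ℝ) ≤
        C * (1 + Real.log Q) ^ B * ((Q : ℝ) ^ 2 * Real.exp (-(k : ℝ) / 500))) ∧
    (∃ C : ℝ, ∀ (Q : ℕ) (t : ℝ), 1 ≤ Q →
      sumOver N Q (fun q χ => analyticOrderNatAt (L q χ) (1 / 2 + t * I)) ≤
        C * (Q : ℝ) ^ 2 * (Real.log (1 + Real.log Q) + Real.log (2 + |t|))) ∧
    (∃ C : ℝ, ∀ (Q : ℕ) (t r : ℝ) (κ : (q : ℕ) → DirichletCharacter ℂ q → ℕ), 1 ≤ Q → 0 ≤ r →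
      r ≤ 1 / 100 →
      (∀ (q : ℕ) (χ : DirichletCharacter ℂ q), 2 ≤ q → q ≤ Q → Nat.Coprime q N →
        χ.IsPrimitive → HasZeros (L q χ) (κ q χ) (1 / 2 + t * I) r) →
      sumOver N Q κ ≤
        C * (Q : ℝ) ^ 2 * (r * Real.log Q + Real.log (1 + Real.log Q) + Real.log (2 + |t|))) ∧
    (∀ a : ℝ, ∃ K : ℝ, 0 < K ∧ ∀ Q : ℕ, 1 ≤ Q →
      (count N Q (fun q χ =>
        K * Real.log (2 + Real.log Q) < (analyticOrderNatAt (L q χ) (1 / 2) : ℝ)) : ℝ) ≤
        K * (Q : ℝ) ^ 2 / (1 + Real.log Q) ^ a) := by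
  have h := Pool.Agent.R399.TM.fo_of_family hL
  have hfin : ∀ (q : ℕ) (χ : DirichletCharacter ℂ q), 2 ≤ q → Nat.Coprime q N →
      χ.IsPrimitive → Differentiable ℂ (L q χ) ∧ ∀ s : ℂ, analyticOrderAt (L q χ) s ≠ ⊤ := by
    intro q χ hq hqN hχ
    refine ⟨?_, h.fin hq hqN hχ⟩
    obtain ⟨c, R₀, V, C, -, -, -, -, hmem⟩ := h
    exact (hmem q χ hq hqN hχ).1
  obtain ⟨C₁, hC₁, havg⟩ := Pool.Agent.R399.TM.avg_disc hm h
  obtain ⟨C₂, B₂, hC₂, hB₂, htail⟩ := Pool.Agent.R399.TM.tail_ord hm h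
  have hp0 : Pool.Agent.R399.TW.pt (1 / 2) 0 = 1 / 2 := by
    rw [pt_half]
    simp
  have hdisc : ∀ (Q : ℕ) (t r : ℝ) (κ : (q : ℕ) → DirichletCharacter ℂ q → ℕ), 1 ≤ Q → 0 ≤ r →
      r ≤ 1 / 100 →
      (∀ (q : ℕ) (χ : DirichletCharacter ℂ q), 2 ≤ q → q ≤ Q → Nat.Coprime q N →
        χ.IsPrimitive → HasZeros (L q χ) (κ q χ) (1 / 2 + t * I) r) →
      sumOver N Q κ ≤ C₁ * (Q : ℝ) ^ 2 *
        (r * Real.log Q + Real.log (1 + Real.log Q) + Real.log (2 + |t|)) := by
    intro Q t r κ hQ hr hr' hκ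
    refine havg Q t r κ hQ hr hr' fun q χ h1 h2 h3 h4 => ?_
    rw [pt_half]
    exact hκ q χ h1 h2 h3 h4
  have hcount : ∀ (Q k : ℕ), 1 ≤ Q →
      (count N Q (fun q χ => k ≤ analyticOrderNatAt (L q χ) (1 / 2)) : ℝ) ≤
        C₂ * 2 ^ (3 * m + 1) * (1 + Real.log Q) ^ B₂ *
          ((Q : ℝ) ^ 2 * Real.exp (-(k : ℝ) / 500)) := by
    intro Q k hQ
    have h1 := htail Q 0 k hQ le_rfl
    rw [add_zero] at h1
    refine le_trans ?_ h1
    refine Pool.Agent.R399.TM.count_mono (N := N) (N' := N) (Q := Q)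
      (S := fun q χ => k ≤ analyticOrderNatAt (L q χ) (1 / 2)) (dvd_refl N) ?_
    intro q χ hq hqN hχ hk
    refine ⟨0, by simp, ?_⟩
    rw [hp0, ← Nat.cast_analyticOrderNatAt ((hfin q χ hq hqN hχ).2 _)]
    exact_mod_cast hk
  refine ⟨hfin, ⟨_, B₂, hcount⟩, ⟨C₁, fun Q t hQ => ?_⟩, ⟨C₁, hdisc⟩, fun a => ?_⟩
  · classical
    have h1 := hdisc Q t 0 (fun q χ => if 2 ≤ q ∧ Nat.Coprime q N ∧ χ.IsPrimitive then
      analyticOrderNatAt (L q χ) (1 / 2 + t * I) else 0) hQ le_rfl (by norm_num)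
      (fun q χ h1 h2 h3 h4 => by
        simp only [if_pos (show 2 ≤ q ∧ Nat.Coprime q N ∧ χ.IsPrimitive from ⟨h1, h3, h4⟩)]
        obtain ⟨g1, g2⟩ := hfin q χ h1 h3 h4
        exact Pool.Agent.R399.TM.Dv.of_order g1 le_rfl (by
          rw [Nat.cast_analyticOrderNatAt (g2 _)]))
    rw [zero_mul, zero_add] at h1
    refine le_trans (le_of_eq ?_) h1
    unfold sumOver
    refine Finset.sum_congr rfl fun q hq => ?_
    rw [Finset.mem_filter, Finset.mem_Icc] at hq
    refine finsum_mem_congr rfl fun χ hχ => ?_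
    simp only [if_pos (show 2 ≤ q ∧ Nat.Coprime q N ∧ χ.IsPrimitive from ⟨hq.1.1, hq.2, hχ⟩)]
  · -- almost all
    set C : ℝ := C₂ * 2 ^ (3 * m + 1) with hCd
    have hC0 : 0 ≤ C := by positivity
    refine ⟨500 * (B₂ + |a|) + C + 1, by positivity, fun Q hQ => ?_⟩
    set K : ℝ := 500 * (B₂ + |a|) + C + 1 with hK
    have hKC : C ≤ K := by
      rw [hK]
      have : 0 ≤ 500 * (B₂ + |a|) := by positivity
      linarith
    have hK1 : 500 * (B₂ + |a|) ≤ K := by
      rw [hK]
      linarith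
    have hK0 : 0 ≤ K := by
      have : 0 ≤ 500 * (B₂ + |a|) := by positivity
      linarith
    have hq1 : (1 : ℝ) ≤ Q := by exact_mod_cast hQ
    have hlq : 0 ≤ Real.log Q := Real.log_nonneg hq1
    set l : ℝ := 1 + Real.log Q with hl
    have hl1 : 1 ≤ l := by linarith
    have hl0 : 0 < l := by linarith
    have hlog : Real.log l ≤ Real.log (2 + Real.log Q) := Real.log_le_log hl0 (by linarith)
    have hll : 0 ≤ Real.log l := Real.log_nonneg hl1
    set k : ℕ := ⌈K * Real.log (2 + Real.log Q)⌉₊ with hk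
    have hkle : K * Real.log (2 + Real.log Q) ≤ k := Nat.le_ceil _
    have h1 : (count N Q (fun q χ =>
        K * Real.log (2 + Real.log Q) < (analyticOrderNatAt (L q χ) (1 / 2) : ℝ)) : ℝ) ≤
        count N Q (fun q χ => k ≤ analyticOrderNatAt (L q χ) (1 / 2)) :=
      Pool.Agent.R399.TM.count_mono (N := N) (N' := N) (Q := Q)
        (S := fun q χ => K * Real.log (2 + Real.log Q) <
          (analyticOrderNatAt (L q χ) (1 / 2) : ℝ))
        (S' := fun q χ => k ≤ analyticOrderNatAt (L q χ) (1 / 2)) (dvd_refl N)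
        fun q χ _ _ _ h2 => Nat.ceil_le.2 h2.le
    refine h1.trans ((hcount Q k hQ).trans ?_)
    have h2 : Real.exp (-(k : ℝ) / 500) ≤ l ^ (-(B₂ + |a|)) := by
      rw [Real.rpow_def_of_pos hl0]
      apply Real.exp_le_exp.2
      have h3 : 500 * (B₂ + |a|) * Real.log l ≤ K * Real.log (2 + Real.log Q) := by gcongr
      linarith
    have h3 : l ^ B₂ * l ^ (-(B₂ + |a|)) ≤ 1 / l ^ a := by
      rw [← Real.rpow_add hl0, one_div, ← Real.rpow_neg hl0.le]
      refine Real.rpow_le_rpow_of_exponent_le hl1 ?_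
      have := le_abs_self a
      linarith
    calc C * l ^ B₂ * ((Q : ℝ) ^ 2 * Real.exp (-(k : ℝ) / 500))
        ≤ C * l ^ B₂ * ((Q : ℝ) ^ 2 * l ^ (-(B₂ + |a|))) := by gcongr
      _ = C * (Q : ℝ) ^ 2 * (l ^ B₂ * l ^ (-(B₂ + |a|))) := by ring
      _ ≤ C * (Q : ℝ) ^ 2 * (1 / l ^ a) := by gcongr
      _ ≤ K * (Q : ℝ) ^ 2 * (1 / l ^ a) := by gcongr
      _ = _ := by ring

end Pool.Agent.Results.MP_3b6604_nt.AverageCentralZeros
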