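import Mathlib
import Pool.Agent.R362.CT.Block
import Pool.Agent.H541R3.ART.Sym
import Pool.Agent.TH820.KerArt

/-!
# Central zeros of the Artin L-functions of `A_n`- and `S_n`-fields

Let `F/ℚ` be a finite Galois extension whose group `G` is `A_n` or `S_n`, `n ≥ 5`. Artin's
holomorphy conjecture is not known for `F/ℚ`. Known are the following properties near `s = 1/2`
of the functions `L χ = L(s, χ, F/ℚ)` (`χ` an irreducible character of `G`) and `Lin H ψ`, the
Hecke L-functions of the linear characters `ψ` of the subgroups `H` of `G` (`Lin H 1` is the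
Dedekind zeta function of `F^H`); they are listed in `CentralData G`.

* `Pool.Agent.H541R3.ART.ArtinData G (1/2)` (starting files): `L χ` is meromorphic and not
  identically zero near `1/2` (Brauer), `Lin H ψ` has no pole at `1/2` (Artin reciprocity and
  Hecke), `Lin H ψ` is the product of the `L χ ^ ⟨χ|_H, ψ⟩` (induction);
* `quadratic`: if `V` is an elementary abelian `2`-subgroup, the characters `ψ` of `V` are
  quadratic or trivial, the root number of `Lin V ψ` is `+1` (Hecke), and by the functional
  equation its order at `1/2` is even;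
* `zeta`: `ζ(1/2) ≠ 0`.

We show: if the order `r` of `ζ_F` at `1/2` is less than `2 (2 ^ k - 1) ⌊n / 2 ^ k⌋` for some
`k ≥ 2`, then `L(s, χ)` is holomorphic and nonzero at `1/2` for all irreducible characters `χ` of `G`
except possibly the sign character of `S_n`; so `r = 0` for `G = A_n`, and for `G = S_n` it is the
order of `L(s, sgn)`, the L-function of a quadratic field. If `n` is a power of two the bound is
`2 (n - 1)`, and a zero of the L-function of the character of degree `n - 1`, if it exists, is at
least double by its root number `+1`, so that it gives `r ≥ 2 (n - 1)`: the bound is optimal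
unless more is known about these zeros.

The proof: the class function `θ` of the orders has even multiplicities at the characters of the
group of translations of `⌊n / 2 ^ k⌋` blocks with `2 ^ k` points, which are permuted by a monomial
group; if one of them occurs, at least `(2 ^ k - 1) ⌊n / 2 ^ k⌋` of them occur, each at least twice.
Otherwise `θ` is constant on these translations, and the starting theory (`H302R2`) shows that it
is constant on `A_n`.
-/

set_option autoImplicit false

namespace Pool.Agent.Results.MP_3b6604_nt.CentralOrderAlternating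

open Pool.Agent.H302R2 Pool.Agent.H541R3.ART Pool.Agent.R362.CT Equiv Equiv.Perm

/-- Functions with the known properties near the central point `1/2` of the Artin L-functions of a
Galois extension of `ℚ` with group `G`. -/
structure CentralData (G : Type) [Group G] extends ArtinData G (1 / 2 : ℂ) where
  /-- the root numbers of quadratic characters are `+1`: even order at `1/2` -/
  quadratic : ∀ V : Subgroup G, (∀ v ∈ V, v * v = 1) → ∀ (ψ : V →* ℂˣ) (n : ℤ),
    meromorphicOrderAt (Lin V ψ) (1 / 2) = (n : WithTop ℤ) → Even n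
  /-- `ζ(1/2) ≠ 0` -/
  zeta : meromorphicOrderAt (L fun _ => 1) (1 / 2) = 0

/-- The sign character. -/
def sgn {n : ℕ} {G : Subgroup (Perm (Fin n))} (g : G) : ℂ :=
  ((Perm.sign (g : Perm (Fin n)) : ℤ) : ℂ)

/-- **Central zeros for `A_n` and `S_n`.** -/
theorem result (n k : ℕ) (hn : 5 ≤ n) (hk : 2 ≤ k) (G : Subgroup (Perm (Fin n)))
    (hG : alternatingGroup (Fin n) ≤ G) (A : CentralData G) (r : ℕ)
    (hr : meromorphicOrderAt (A.Lin ⊥ 1) (1 / 2) = (r : WithTop ℤ))
    (hlt : r < 2 * ((2 ^ k - 1) * (n / 2 ^ k))) :
    -- holomorphic and nonzero for all irreducible characters except the sign character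
    (∀ χ ∈ Irr G, χ ≠ sgn → meromorphicOrderAt (A.L χ) (1 / 2) = 0) ∧
    -- `G = A_n`: `ζ_F(1/2) ≠ 0`, and all `L(1/2, χ)` are finite and nonzero
    (G = alternatingGroup (Fin n) → r = 0 ∧
      ∀ χ ∈ Irr G, meromorphicOrderAt (A.L χ) (1 / 2) = 0) ∧
    -- `G = S_n`: all zeros come from the quadratic subfield
    (G = ⊤ → meromorphicOrderAt (A.L sgn) (1 / 2) = (r : WithTop ℤ)) := by
  classical
  have : Fintype G := Fintype.ofFinite G
  have hGc : (Nat.card G : ℂ) ≠ 0 := by exact_mod_cast Nat.card_pos.ne'
  have hθ := A.toArtinData.isHeilbronn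
  have h1 := A.toArtinData.theta_one hr
  set θ : G → ℂ := theta A.toArtinData.ord with hθdef
  -- even multiplicities
  have hE : EvenEl θ := by
    intro V hV ψ m hm
    choose! c hc using fun χ (hχ : χ ∈ Irr G) => exists_mult hχ V ψ
    have h2 := A.toArtinData.order_Lin V ψ c hc
    have h3 := theta_mult A.toArtinData.ord V ψ c hc
    have h4 := A.quadratic V hV ψ _ h2
    rw [← hθdef, hm] at h3
    have hV0 : (Nat.card V : ℂ) ≠ 0 := by exact_mod_cast Nat.card_pos.ne'
    have h5 := mul_right_cancel₀ hV0 h3
    have h6 : (m : ℤ) = ∑ χ ∈ irrF G, (c χ : ℤ) * A.toArtinData.ord χ := by exact_mod_cast h5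
    rw [← h6] at h4
    exact_mod_cast h4
  obtain ⟨a, b, hab⟩ := sym_even hn hk G hG hθ hE h1 hlt
  have h1I : (fun _ : G => (1 : ℂ)) ∈ Irr G := by
    have h2 := Pool.Agent.TH820.lin_irr (1 : G →* ℂˣ)
    have h3 : (fun g : G => (((1 : G →* ℂˣ) g : ℂˣ) : ℂ)) = fun _ => 1 := by
      funext g
      simp
    rwa [h3] at h2
  let ε : G →* ℂˣ := (Units.map (Int.castRingHom ℂ : ℤ →* ℂ)).comp (Perm.sign.comp G.subtype)
  have hε : (fun g : G => ((ε g : ℂˣ) : ℂ)) = sgn := rfl
  have hsI : (sgn : G → ℂ) ∈ Irr G := by
    have h2 := Pool.Agent.TH820.lin_irr ε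
    rwa [hε] at h2
  -- the pairing
  have hpair : ∀ χ : G → ℂ, ∑ g : G, θ g * χ g⁻¹
      = a * ∑ g : G, (1 : ℂ) * χ g⁻¹ + b * ∑ g : G, sgn g * χ g⁻¹ := by
    intro χ
    rw [Finset.mul_sum, Finset.mul_sum, ← Finset.sum_add_distrib]
    refine Finset.sum_congr rfl fun g _ => ?_
    rw [hab g]
    unfold sgn
    ring
  have hz0 : ∑ g : G, θ g * (1 : ℂ) = 0 := by
    have h2 := theta_pair A.toArtinData.ord h1I
    have h3 : A.toArtinData.ord (fun _ : G => (1 : ℂ)) = 0 := by
      unfold ArtinData.ord
      rw [A.zeta]
      rfl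
    rw [h3] at h2
    simpa using h2
  have h1' : (r : ℂ) = a + b := by
    rw [← h1, hab 1]
    simp
  -- the sum of the signs
  have hs : (∀ g : G, (sgn g : ℂ) = 1) ∨ ∑ g : G, (sgn g : ℂ) = 0 := by
    by_cases h : ∀ g : G, (sgn g : ℂ) = 1
    · exact Or.inl h
    · right
      have hne : (fun _ : G => (1 : ℂ)) ≠ sgn := by
        intro h2
        exact h fun g => (congrFun h2 g).symm
      have h2 := pair_ne hsI h1I hne.symm
      simpa using h2
  have hzero : a + (if ∀ g : G, (sgn g : ℂ) = 1 then b else 0) = 0 := by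
    have h2 := hpair fun _ => 1
    simp only [mul_one] at h2 hz0
    rw [hz0, Finset.sum_const, Finset.card_univ, nsmul_eq_mul, mul_one,
      ← Nat.card_eq_fintype_card] at h2
    rcases hs with h | h
    · rw [if_pos h]
      rw [Finset.sum_congr rfl fun g _ => h g, Finset.sum_const, Finset.card_univ, nsmul_eq_mul,
        mul_one, ← Nat.card_eq_fintype_card, ← add_mul] at h2
      rcases mul_eq_zero.mp h2.symm with h3 | h3
      · exact_mod_cast h3
      · exact absurd h3 hGc
    · have hns : ¬ ∀ g : G, (sgn g : ℂ) = 1 := by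
        intro h3
        rw [Finset.sum_congr rfl fun g _ => h3 g, Finset.sum_const, Finset.card_univ,
          nsmul_eq_mul, mul_one, ← Nat.card_eq_fintype_card] at h
        exact hGc h
      rw [if_neg hns, add_zero]
      rw [h, mul_zero, add_zero] at h2
      rcases mul_eq_zero.mp h2.symm with h3 | h3
      · exact_mod_cast h3
      · exact absurd h3 hGc
  have hpart1 : ∀ χ ∈ Irr G, χ ≠ sgn → meromorphicOrderAt (A.L χ) (1 / 2) = 0 := by
    intro χ hχ hne
    by_cases hχ1 : χ = fun _ => 1
    · rw [hχ1]
      exact A.zeta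
    · have h2 := hpair χ
      rw [pair_ne h1I hχ (Ne.symm hχ1), pair_ne hsI hχ hne.symm, mul_zero, mul_zero,
        add_zero] at h2
      have h3 := A.toArtinData.order_eq hχ (k := 0) (by rw [← hθdef, h2]; simp)
      exact_mod_cast h3
  refine ⟨hpart1, ?_, ?_⟩
  · intro hGA
    have hall : ∀ g : G, (sgn g : ℂ) = 1 := by
      intro g
      have h2 : Perm.sign (g : Perm (Fin n)) = 1 := by
        rw [← mem_alternatingGroup, ← hGA]
        exact g.2
      unfold sgn
      rw [h2]
      norm_num
    rw [if_pos hall] at hzero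
    have hr0 : r = 0 := by
      have h2 : ((r : ℕ) : ℂ) = ((a + b : ℕ) : ℂ) := by
        rw [h1']
        push_cast
        rfl
      have h3 : r = a + b := by exact_mod_cast h2
      omega
    refine ⟨hr0, ?_⟩
    intro χ hχ
    by_cases hne : χ = sgn
    · have h2 : χ = fun _ => 1 := by
        rw [hne]
        exact funext hall
      rw [h2]
      exact A.zeta
    · exact hpart1 χ hχ hne
  · intro hGT
    have hodd : ¬ ∀ g : G, (sgn g : ℂ) = 1 := by
      intro hall
      have h0 : (0 : ℕ) < n := by omega
      have h01 : (⟨0, by omega⟩ : Fin n) ≠ ⟨1, by omega⟩ := by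
        intro h2
        have := congrArg Fin.val h2
        simp at this
      have hmem : ∀ π : Perm (Fin n), π ∈ G := fun π => hGT ▸ Subgroup.mem_top π
      have h2 := hall ⟨Equiv.swap ⟨0, by omega⟩ ⟨1, by omega⟩, hmem _⟩
      unfold sgn at h2
      rw [Perm.sign_swap h01] at h2
      norm_num at h2
    rw [if_neg hodd, add_zero] at hzero
    have hrb : r = b := by
      have h2 : ((r : ℕ) : ℂ) = ((a + b : ℕ) : ℂ) := by
        rw [h1']
        push_cast
        rfl
      have h3 : r = a + b := by exact_mod_cast h2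
      omega
    have h2 := hpair sgn
    have hss : ∑ g : G, (sgn g : ℂ) * sgn g⁻¹ = (Nat.card G : ℂ) := pair_self hsI
    rw [hzero, Nat.cast_zero, zero_mul, zero_add, hss] at h2
    have h3 := A.toArtinData.order_eq hsI (k := (b : ℤ)) (by
      rw [← hθdef, h2]
      push_cast
      rfl)
    rw [h3, hrb]
    rfl

end Pool.Agent.Results.MP_3b6604_nt.CentralOrderAlternating
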