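import Pool.Agent.R409.RH.Cen

/-!
# Central orders and root numbers of Artin L-functions over `ℚ`, seen by Frobenius classes

Let `F/ℚ` be a finite Galois extension with group `G`, and let `N_C(T)` be the finite sums
`∑ κ_γ(k log p / T) p^{-k/2} / k`, `κ_γ(u) = e^{iγu} / Γ(1 + u)`, over the prime powers
`p^k ≤ exp (exp (θ T))` with `Frob_p^k ∈ C`. Let `w` be the number of the symplectic irreducible characters
with root number `-1`. We prove that the quadratic form `Q(T) = #G ∑_C |N_C(T)|² / #C` satisfies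
`lim Q(T) / log² T = ∑_χ (ord_{1/2} L(s, χ))² ≥ w`, and that statements (ii) and (iii) of the problem for
`F` hold if and only if the limit is `w` (together with a lower bound for the sum over the prime powers
which split completely, which is superfluous if there are no poles at `1/2`).
-/

set_option autoImplicit false

namespace Pool.Agent.Results.MP_3b6604_nt.RootNumbersFromClasses

open NumberField Filter Topology
open Pool.Agent.R409.RH

variable {G : Type} [Group G] {ι : Type} [Fintype ι] {d : ι → ℕ}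

/-- `W` is the constant of a functional equation `g(s) f(s) = W g(1-s) f(1-s)` near the centre, with a
factor `g` (conductor and Gamma factors) which is analytic and not zero at `1/2`. -/
def HasRootNumber (f : ℂ → ℂ) (W : ℂ) : Prop :=
  ∃ g : ℂ → ℂ, AnalyticAt ℂ g (1 / 2) ∧ g (1 / 2) ≠ 0 ∧
    ∀ᶠ s in 𝓝[≠] (1 / 2 : ℂ), g s * f s = W * (g (1 - s) * f (1 - s))

/-- Statement (ii): `L(s, χ)` has order `0` at `1/2` for the non-trivial irreducible characters which are
not symplectic. -/
def StatementTwo (ρ : ∀ i, G →* Matrix (Fin (d i)) (Fin (d i)) ℂ) (L : ι → ℂ → ℂ) : Prop :=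
  ∀ i, (¬ ∀ g, (ρ i g).trace = 1) → fs (ρ i) ≠ -1 → ordAt (L i) (1 / 2) = 0

/-- Statement (iii): the order at `1/2` is `(1 - W(χ)) / 2` for the symplectic irreducible characters. -/
def StatementThree (ρ : ∀ i, G →* Matrix (Fin (d i)) (Fin (d i)) ℂ) (L : ι → ℂ → ℂ) (W : ι → ℂ) :
    Prop :=
  ∀ i, fs (ρ i) = -1 → (ordAt (L i) (1 / 2) : ℂ) = (1 - W i) / 2

/-- The symplectic irreducible characters with root number `-1`. -/
def negSet (ρ : ∀ i, G →* Matrix (Fin (d i)) (Fin (d i)) ℂ) (W : ι → ℂ) : Set ι :=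
  {i | fs (ρ i) = -1 ∧ W i = -1}

/-- The quadratic form `Q(T) = #G ∑_C |N_C(T)|² / #C` of the class sums at `s₀ = 1/2`. -/
noncomputable def quad (frob : Nat.Primes → G) (I : Nat.Primes → Subgroup G) (γ θ T : ℝ) : ℝ :=
  Nat.card G * ∑ᶠ C : ConjClasses G, ‖classSum frob I C (1 / 2) γ θ T‖ ^ 2 /
    (Nat.card C.carrier : ℝ)

/-- The sum `- #G Re N_1(T)` over the prime powers which split completely. -/
noncomputable def split (frob : Nat.Primes → G) (I : Nat.Primes → Subgroup G) (γ θ T : ℝ) : ℝ :=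
  -(Nat.card G : ℝ) * (classSum frob I (ConjClasses.mk 1) (1 / 2) γ θ T).re

section proofs

/-- the root number and the order -/
theorem root_eq {f : ℂ → ℂ} {W : ℂ} (h : HasRootNumber f W) {r : ℤ}
    (hf : MeromorphicAt f (1 / 2)) (hr : meromorphicOrderAt f (1 / 2) = r) : W = (-1) ^ r := by
  obtain ⟨g, hg, hg0, hW⟩ := h
  obtain ⟨u, hu, hu0, hfu⟩ := (meromorphicOrderAt_eq_int_iff hf).1 hr
  have href : Tendsto (fun s : ℂ => 1 - s) (𝓝[≠] (1 / 2)) (𝓝[≠] (1 / 2)) := by
    refine tendsto_nhdsWithin_iff.2 ⟨?_, ?_⟩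
    · have h1 : Tendsto (fun s : ℂ => 1 - s) (𝓝 (1 / 2)) (𝓝 (1 - 1 / 2)) :=
        tendsto_const_nhds.sub tendsto_id
      have h2 : (1 - 1 / 2 : ℂ) = 1 / 2 := by norm_num
      rw [h2] at h1
      exact h1.mono_left nhdsWithin_le_nhds
    · filter_upwards [self_mem_nhdsWithin] with s hs
      intro h
      apply hs
      have h3 : (1 : ℂ) - s = 1 / 2 := h
      show s = 1 / 2
      linear_combination -h3
  have hid : Tendsto (fun s : ℂ => s) (𝓝[≠] (1 / 2)) (𝓝 (1 / 2)) :=
    tendsto_id.mono_left nhdsWithin_le_nhds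
  have href' : Tendsto (fun s : ℂ => 1 - s) (𝓝[≠] (1 / 2)) (𝓝 (1 / 2)) :=
    href.mono_right nhdsWithin_le_nhds
  have h1 : Tendsto (fun s => g s * u s) (𝓝[≠] (1 / 2)) (𝓝 (g (1 / 2) * u (1 / 2))) :=
    (hg.continuousAt.tendsto.comp hid).mul (hu.continuousAt.tendsto.comp hid)
  have h2 : Tendsto (fun s => W * (-1) ^ r * (g (1 - s) * u (1 - s))) (𝓝[≠] (1 / 2))
      (𝓝 (W * (-1) ^ r * (g (1 / 2) * u (1 / 2)))) :=
    ((hg.continuousAt.tendsto.comp href').mul (hu.continuousAt.tendsto.comp href')).const_mul _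
  have h3 : (fun s => g s * u s) =ᶠ[𝓝[≠] (1 / 2)]
      fun s => W * (-1) ^ r * (g (1 - s) * u (1 - s)) := by
    filter_upwards [hW, hfu, href.eventually hfu, self_mem_nhdsWithin] with s e1 e2 e3 hs
    have hs0 : s - 1 / 2 ≠ 0 := sub_ne_zero.2 hs
    rw [e2, e3] at e1
    have e4 : (1 - s - 1 / 2 : ℂ) = (-1) * (s - 1 / 2) := by ring
    rw [e4, mul_zpow] at e1
    simp only [smul_eq_mul] at e1
    have hz : (s - 1 / 2) ^ r ≠ 0 := zpow_ne_zero _ hs0
    have e5 : (s - 1 / 2) ^ r * (g s * u s) =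
        (s - 1 / 2) ^ r * (W * (-1) ^ r * (g (1 - s) * u (1 - s))) := by
      linear_combination e1
    exact mul_left_cancel₀ hz e5
  have h4 := tendsto_nhds_unique (h1.congr' h3) h2
  have h5 : g (1 / 2) * u (1 / 2) ≠ 0 := mul_ne_zero hg0 hu0
  have h6 : W * (-1) ^ r = 1 := by
    have : (W * (-1) ^ r) * (g (1 / 2) * u (1 / 2)) = 1 * (g (1 / 2) * u (1 / 2)) := by
      rw [one_mul]
      exact h4.symm
    exact mul_right_cancel₀ h5 this
  have h7 : ((-1 : ℂ) ^ r) * (-1) ^ r = 1 := by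
    rw [← mul_zpow]
    norm_num
  calc W = W * ((-1) ^ r * (-1) ^ r) := by rw [h7, mul_one]
    _ = (W * (-1) ^ r) * (-1) ^ r := by ring
    _ = (-1) ^ r := by rw [h6, one_mul]

theorem odd_of_neg {r : ℤ} (h : ((-1 : ℂ)) ^ r = -1) : Odd r := by
  by_contra hr
  rw [Int.not_odd_iff_even] at hr
  rw [hr.neg_one_zpow] at h
  norm_num at h

end proofs

/-- **Central orders, root numbers and Frobenius classes.** Let `F/ℚ` be a finite Galois extension with
group `G`, `frob p` a Frobenius element at a prime ideal `P p` above `p`, `ρ_i` the irreducible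
representations of `G`, `L_i` the meromorphic continuation of `L(s, ρ_i, F/ℚ)`, and `W_i` the root number of
`L_i` for the symplectic `ρ_i`. Let `w` be the number of the symplectic `ρ_i` with `W_i = -1` and `D` the
sum of their degrees.

1. There are `c_C`, `m_C` with `N_C(T) = c_C - m_C (log T - Λ_γ) + O(1/T)` for all `C`, `γ > π/2`,
`θ > 1/2`, the order of `L(s, τ)` at `1/2` is `∑_C χ(C) m_C` for every representation `τ` of `G`, and the
root number of a symplectic `ρ_i` is `exp (π √-1 ∑_C χ_i(C) m_C)`.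

2. `Q(T) / log² T` tends to `∑_i (ord L_i)²`, which is at least `w`.

3. (ii) and (iii) hold for `F` if and only if there are arbitrarily large `T` with
`Q(T) ≤ (w + 1/2) log² T` and arbitrarily large `T` with `- #G Re N_1(T) ≥ (D - 1/2) log T`.

4. If no `L_i` has a pole at `1/2`, then (ii) and (iii) hold for `F` if and only if there are arbitrarily
large `T` with `Q(T) ≤ (w + 1/2) log² T`. -/
theorem result (F : Type) [Field F] [NumberField F] [IsGalois ℚ F]
    (P : Nat.Primes → Ideal (𝓞 F)) (frob : Nat.Primes → (F ≃ₐ[ℚ] F)) (hfrob : IsFrobenius F P frob)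
    (ι : Type) [Fintype ι] (d : ι → ℕ) (ρ : ∀ i, (F ≃ₐ[ℚ] F) →* Matrix (Fin (d i)) (Fin (d i)) ℂ)
    (hirr : AreIrreducible ρ) (L : ι → ℂ → ℂ)
    (hL : ∀ i, IsContinuation frob (inertiaAt F P) (ρ i) (L i)) (W : ι → ℂ)
    (hW : ∀ i, fs (ρ i) = -1 → HasRootNumber (L i) (W i)) :
    (∃ c m : ConjClasses (F ≃ₐ[ℚ] F) → ℂ,
      (∀ γ θ : ℝ, Real.pi / 2 < γ → 1 / 2 < θ → ∀ C, ∃ B T₀ : ℝ, ∀ T : ℝ, T₀ ≤ T →
        ‖classSum frob (inertiaAt F P) C (1 / 2) γ θ T -
          (c C - m C * (Real.log T - lam γ))‖ ≤ B / T) ∧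
      (∀ (k : ℕ) (τ : (F ≃ₐ[ℚ] F) →* Matrix (Fin k) (Fin k) ℂ) (f : ℂ → ℂ),
        IsContinuation frob (inertiaAt F P) τ f →
        ∃ r : ℤ, meromorphicOrderAt f (1 / 2) = r ∧ (r : ℂ) = ∑ᶠ C, chi τ C * m C) ∧
      ∀ i, fs (ρ i) = -1 →
        W i = Complex.exp (Real.pi * Complex.I * ∑ᶠ C, chi (ρ i) C * m C)) ∧
    ((negSet ρ W).ncard : ℤ) ≤ ∑ i, ordAt (L i) (1 / 2) ^ 2 ∧
    ∀ γ θ : ℝ, Real.pi / 2 < γ → 1 / 2 < θ →
      Tendsto (fun T : ℝ => quad frob (inertiaAt F P) γ θ T / Real.log T ^ 2) atTop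
        (𝓝 (∑ i, (ordAt (L i) (1 / 2) : ℝ) ^ 2)) ∧
      (StatementTwo ρ L ∧ StatementThree ρ L W ↔
        (∀ T₀ : ℝ, ∃ T : ℝ, T₀ ≤ T ∧ quad frob (inertiaAt F P) γ θ T ≤
          ((negSet ρ W).ncard + 1 / 2) * Real.log T ^ 2) ∧
        ∀ T₀ : ℝ, ∃ T : ℝ, T₀ ≤ T ∧
          ((∑ᶠ i ∈ negSet ρ W, d i : ℕ) - 1 / 2) * Real.log T ≤
            split frob (inertiaAt F P) γ θ T) ∧
      ((∀ i, 0 ≤ ordAt (L i) (1 / 2)) → (StatementTwo ρ L ∧ StatementThree ρ L W ↔
        ∀ T₀ : ℝ, ∃ T : ℝ, T₀ ≤ T ∧ quad frob (inertiaAt F P) γ θ T ≤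
          ((negSet ρ W).ncard + 1 / 2) * Real.log T ^ 2)) := by
  classical
  have : Fintype (ConjClasses (F ≃ₐ[ℚ] F)) := Fintype.ofFinite _
  have hn := frob_normal hfrob
  have hre : (1 - (1 / 2 : ℂ).re : ℝ) = 1 / 2 := by
    norm_num
  have hfin : ∀ i, meromorphicOrderAt (L i) (1 / 2) = ordAt (L i) (1 / 2) := by
    intro i
    obtain ⟨m, -, h2, -⟩ := class_data hn hirr hL (1 / 2)
    exact (h2 _ _ _ (hL i)).1
  have hroot : ∀ i, fs (ρ i) = -1 → W i = (-1) ^ ordAt (L i) (1 / 2) := fun i hi =>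
    root_eq (hW i hi) ((hL i).1 _) (hfin i)
  -- the combinatorial part
  set r : ι → ℤ := fun i => ordAt (L i) (1 / 2) with hr
  have htriv : ∀ i, (∀ g, (ρ i g).trace = 1) → r i = 0 := fun i hi =>
    order_triv hn hirr hL hi
  set S : Finset ι := Finset.univ.filter fun i => i ∈ negSet ρ W with hS
  have hSc : (negSet ρ W).ncard = S.card := by
    rw [Set.ncard_eq_toFinset_card' (negSet ρ W)]
    congr 1
    ext i
    simp [hS]
  have hSd : (∑ᶠ i ∈ negSet ρ W, d i : ℕ) = ∑ i ∈ S, d i := by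
    rw [finsum_mem_eq_sum_of_inter_support_eq]
    ext i
    simp [hS]
  have hodd : ∀ i ∈ S, Odd (r i) := by
    intro i hi
    have h1 : i ∈ negSet ρ W := (Finset.mem_filter.1 hi).2
    have h2 := hroot i h1.1
    rw [h1.2] at h2
    exact odd_of_neg h2.symm
  have hsq1 : ∀ i ∈ S, 1 ≤ r i ^ 2 := by
    intro i hi
    have h1 : r i ≠ 0 := by
      intro h
      have := hodd i hi
      rw [h] at this
      simp at this
    have : 0 < r i ^ 2 := by positivity
    omega
  have hlow : (S.card : ℤ) ≤ ∑ i, r i ^ 2 := by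
    calc (S.card : ℤ) = ∑ i ∈ S, (1 : ℤ) := by simp
      _ ≤ ∑ i ∈ S, r i ^ 2 := Finset.sum_le_sum hsq1
      _ ≤ ∑ i, r i ^ 2 := Finset.sum_le_sum_of_subset_of_nonneg (Finset.subset_univ _)
        fun i _ _ => sq_nonneg _
  have hdpos : ∀ i, 0 < d i := by
    intro i
    by_contra h
    have h0 : d i = 0 := by omega
    have h1 := hirr.1 i
    have h2 : ∀ g, (ρ i g).trace = 0 := by
      intro g
      have : IsEmpty (Fin (d i)) := by
        rw [h0]
        infer_instance
      simp [Matrix.trace]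
    have hG : (Nat.card (F ≃ₐ[ℚ] F) : ℂ) ≠ 0 := by exact_mod_cast Nat.card_pos.ne'
    simp only [h2, zero_mul, finsum_zero] at h1
    exact hG h1.symm
  have hsplit : (∀ i, r i = if i ∈ S then 1 else 0) ↔
      StatementTwo ρ L ∧ StatementThree ρ L W := by
    constructor
    · intro h
      refine ⟨fun i _ hi' => ?_, fun i hi => ?_⟩
      · have h1 := h i
        rw [if_neg] at h1
        · exact h1
        · intro h2
          exact hi' (Finset.mem_filter.1 h2).2.1
      · have h1 := h i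
        have h2 := hroot i hi
        by_cases h3 : i ∈ S
        · have h4 : W i = -1 := (Finset.mem_filter.1 h3).2.2
          rw [if_pos h3] at h1
          show ((r i : ℤ) : ℂ) = _
          rw [h1, h4]
          norm_num
        · rw [if_neg h3] at h1
          have h5 : ordAt (L i) (1 / 2) = 0 := h1
          rw [h5] at h2 ⊢
          rw [h2]
          norm_num
    · rintro ⟨hA, hB⟩ i
      by_cases hi : fs (ρ i) = -1
      · have h1 := hB i hi
        by_cases h3 : i ∈ S
        · have h4 : W i = -1 := (Finset.mem_filter.1 h3).2.2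
          rw [if_pos h3]
          rw [h4] at h1
          have h5 : (r i : ℂ) = 1 := by
            rw [hr]
            simp only
            rw [h1]
            norm_num
          exact_mod_cast h5
        · rw [if_neg h3]
          have h4 : W i ≠ -1 := fun h => h3 (Finset.mem_filter.2 ⟨Finset.mem_univ _, hi, h⟩)
          have h5 : W i = 1 := by
            have h6 := hroot i hi
            rcases Int.even_or_odd (ordAt (L i) (1 / 2)) with h7 | h7
            · rw [h6, h7.neg_one_zpow]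
            · exact absurd (by rw [h6, h7.neg_one_zpow]) h4
          rw [h5] at h1
          have h5 : (r i : ℂ) = 0 := by
            rw [hr]
            simp only
            rw [h1]
            norm_num
          exact_mod_cast h5
      · have h3 : i ∉ S := fun h => hi (Finset.mem_filter.1 h).2.1
        rw [if_neg h3]
        by_cases ht : ∀ g, (ρ i g).trace = 1
        · exact htriv i ht
        · exact hA i ht hi
  have hquad : (∑ i, r i ^ 2 ≤ (S.card : ℤ)) ↔
      (∀ i ∈ S, r i = 1 ∨ r i = -1) ∧ ∀ i, i ∉ S → r i = 0 := by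
    constructor
    · intro h
      have h1 : ∑ i, r i ^ 2 = ∑ i ∈ S, r i ^ 2 + ∑ i ∈ Finset.univ \ S, r i ^ 2 := by
        rw [add_comm]
        exact (Finset.sum_sdiff (Finset.subset_univ S)).symm
      have h2 : (S.card : ℤ) ≤ ∑ i ∈ S, r i ^ 2 := by
        calc (S.card : ℤ) = ∑ i ∈ S, (1 : ℤ) := by simp
          _ ≤ ∑ i ∈ S, r i ^ 2 := Finset.sum_le_sum hsq1
      have h3 : 0 ≤ ∑ i ∈ Finset.univ \ S, r i ^ 2 := Finset.sum_nonneg fun i _ => sq_nonneg _
      have h4 : ∑ i ∈ Finset.univ \ S, r i ^ 2 = 0 := by omega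
      have h5 : ∑ i ∈ S, (r i ^ 2 - 1) = 0 := by
        rw [Finset.sum_sub_distrib]
        simp only [Finset.sum_const, nsmul_eq_mul, mul_one]
        omega
      refine ⟨fun i hi => ?_, fun i hi => ?_⟩
      · have h6 := (Finset.sum_eq_zero_iff_of_nonneg (fun i hi => by
          have := hsq1 i hi
          omega)).1 h5 i hi
        have h7 : r i ^ 2 = 1 := by linarith
        rcases mul_eq_zero.1 (by linear_combination h7 : (r i - 1) * (r i + 1) = 0) with h | h
        · left
          omega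
        · right
          omega
      · have h6 := (Finset.sum_eq_zero_iff_of_nonneg (fun i _ => sq_nonneg (r i))).1 h4 i
          (Finset.mem_sdiff.2 ⟨Finset.mem_univ _, hi⟩)
        exact pow_eq_zero_iff (two_ne_zero) |>.1 h6
    · rintro ⟨h1, h2⟩
      have h3 : ∀ i, r i ^ 2 = if i ∈ S then 1 else 0 := by
        intro i
        by_cases hi : i ∈ S
        · rw [if_pos hi]
          rcases h1 i hi with h | h <;> rw [h] <;> norm_num
        · rw [if_neg hi, h2 i hi]
          norm_num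
      simp only [h3]
      simp
  obtain ⟨m, h1, h2, h3, h4⟩ := class_data hn hirr hL (1 / 2)
  have hm : ∀ C, m C = (Nat.card C.carrier : ℂ) / Nat.card (F ≃ₐ[ℚ] F) *
      ∑ i, (starRingEnd ℂ) (chi (ρ i) C) * r i := h3
  refine ⟨?_, ?_, fun γ θ hγ hθ => ?_⟩
  · obtain ⟨c, m', h1', h2', -⟩ := class_law hn hirr hL (1 / 2)
    refine ⟨c, m', fun γ θ hγ hθ C => ?_, fun k τ f hf => ?_, fun i hi => ?_⟩
    · obtain ⟨B, T₀, -, -, hT⟩ := h1' γ θ hγ (by rw [hre]; exact hθ) (by linarith) C
      exact ⟨B, T₀, hT⟩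
    · simp only [finsum_eq_sum_of_fintype]
      exact (h2' k τ f hf).1
    · obtain ⟨⟨q, hq, hq'⟩, -⟩ := h2' _ _ _ (hL i)
      rw [finsum_eq_sum_of_fintype, ← hq', hroot i hi]
      have h5 : q = ordAt (L i) (1 / 2) := by
        have := hfin i
        rw [hq] at this
        exact_mod_cast this
      rw [← h5, mul_comm, Complex.exp_int_mul, Complex.exp_pi_mul_I]
  · rw [hSc]
    exact hlow
  · have h1' := h1 γ θ hγ (by rw [hre]; exact hθ) (by linarith)
    have h5 := tend_quad h1'
    rw [← h4] at h5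
    have hlim : Tendsto (fun T : ℝ => quad frob (inertiaAt F P) γ θ T / Real.log T ^ 2) atTop
        (𝓝 (∑ i, (r i : ℝ) ^ 2)) := by
      unfold quad
      simp only [finsum_eq_sum_of_fintype]
      exact h5
    have hlimZ : Tendsto (fun T : ℝ => quad frob (inertiaAt F P) γ θ T / Real.log T ^ 2) atTop
        (𝓝 ((∑ i, r i ^ 2 : ℤ) : ℝ)) := by
      push_cast
      exact hlim
    have hq : (∀ T₀ : ℝ, ∃ T : ℝ, T₀ ≤ T ∧ quad frob (inertiaAt F P) γ θ T ≤
          ((negSet ρ W).ncard + 1 / 2) * Real.log T ^ 2) ↔ ∑ i, r i ^ 2 ≤ (S.card : ℤ) := by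
      rw [← thr_iff hlimZ (a := (negSet ρ W).ncard + 1 / 2) (b := (S.card : ℤ)) (by
        rw [hSc]
        push_cast
        rfl)]
    have hlin : Tendsto (fun T : ℝ => -split frob (inertiaAt F P) γ θ T / Real.log T ^ 1) atTop
        (𝓝 ((-∑ i, (d i : ℤ) * r i : ℤ) : ℝ)) := by
      have h6 := (Complex.continuous_re.tendsto _).comp ((h1' (ConjClasses.mk 1)).const_mul
        (Nat.card (F ≃ₐ[ℚ] F) : ℂ))
      have h7 : ((Nat.card (F ≃ₐ[ℚ] F) : ℂ) * -m (ConjClasses.mk 1)).re =
          ((-∑ i, (d i : ℤ) * r i : ℤ) : ℝ) := by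
        rw [mul_neg, slope_one hm, Complex.neg_re, Complex.re_sum]
        push_cast
        congr 1
        refine Finset.sum_congr rfl fun i _ => ?_
        simp
      rw [h7] at h6
      refine h6.congr fun T => ?_
      simp only [Function.comp_apply]
      have h8 : (Nat.card (F ≃ₐ[ℚ] F) : ℂ) *
          (classSum frob (inertiaAt F P) (ConjClasses.mk 1) (1 / 2) γ θ T / (Real.log T : ℂ)) =
          (((Nat.card (F ≃ₐ[ℚ] F) : ℝ) / Real.log T : ℝ) : ℂ) *
          classSum frob (inertiaAt F P) (ConjClasses.mk 1) (1 / 2) γ θ T := by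
        push_cast
        ring
      rw [h8, Complex.re_ofReal_mul]
      unfold split
      ring
    have hl : (∀ T₀ : ℝ, ∃ T : ℝ, T₀ ≤ T ∧ ((∑ᶠ i ∈ negSet ρ W, d i : ℕ) - 1 / 2) * Real.log T ≤
        split frob (inertiaAt F P) γ θ T) ↔ (∑ i ∈ S, d i : ℕ) ≤ ∑ i, (d i : ℤ) * r i := by
      have h6 := thr_iff hlin (a := -((∑ᶠ i ∈ negSet ρ W, d i : ℕ) - 1 / 2))
        (b := -(∑ i ∈ S, d i : ℕ)) (by
          rw [hSd]
          push_cast
          ring)
      rw [neg_le_neg_iff] at h6
      rw [← h6]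
      refine forall_congr' fun T₀ => exists_congr fun T => and_congr_right fun _ => ?_
      rw [pow_one, neg_mul, neg_le_neg_iff]
    refine ⟨hlim, ?_, fun hp => ?_⟩
    · rw [hq, hl, hquad, ← hsplit]
      constructor
      · intro h
        refine ⟨⟨fun i hi => Or.inl (by rw [h i, if_pos hi]), fun i hi => by rw [h i, if_neg hi]⟩,
          ?_⟩
        have h6 : ∑ i, (d i : ℤ) * r i = ∑ i ∈ S, (d i : ℤ) := by
          simp only [h, mul_ite, mul_one, mul_zero]
          rw [Finset.sum_ite_mem, Finset.univ_inter]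
        rw [h6]
        push_cast
        exact le_rfl
      · rintro ⟨⟨h6, h7⟩, h8⟩
        have h9 : ∑ i, (d i : ℤ) * r i = ∑ i ∈ S, (d i : ℤ) * r i := by
          symm
          refine Finset.sum_subset (Finset.subset_univ _) fun i _ hi => ?_
          rw [h7 i hi, mul_zero]
        rw [h9] at h8
        push_cast at h8
        have h10 : ∑ i ∈ S, (d i : ℤ) * (1 - r i) ≤ 0 := by
          simp only [mul_sub, mul_one, Finset.sum_sub_distrib]
          linarith
        have h11 : ∀ i ∈ S, 0 ≤ (d i : ℤ) * (1 - r i) := by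
          intro i hi
          refine mul_nonneg (by positivity) ?_
          rcases h6 i hi with h | h <;> rw [h] <;> norm_num
        have h12 := (Finset.sum_eq_zero_iff_of_nonneg h11).1
          (le_antisymm h10 (Finset.sum_nonneg h11))
        intro i
        by_cases hi : i ∈ S
        · rw [if_pos hi]
          rcases mul_eq_zero.1 (h12 i hi) with h | h
          · have := hdpos i
            omega
          · omega
        · rw [if_neg hi]
          exact h7 i hi
    · rw [hq, hquad, ← hsplit]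
      constructor
      · intro h
        exact ⟨fun i hi => Or.inl (by rw [h i, if_pos hi]), fun i hi => by rw [h i, if_neg hi]⟩
      · rintro ⟨h6, h7⟩ i
        by_cases hi : i ∈ S
        · rw [if_pos hi]
          rcases h6 i hi with h | h
          · exact h
          · have : 0 ≤ r i := hp i
            omega
        · rw [if_neg hi]
          exact h7 i hi

end Pool.Agent.Results.MP_3b6604_nt.RootNumbersFromClasses
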