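import Mathlib
import Pool.Agent.R362.CT.Orth
import Pool.Agent.H541R3.ART.Core
import Pool.Agent.TH820.KerArt

/-!
# Central zeros of the Artin L-functions of totally orthogonal groups

Let `F/ℚ` be a finite Galois extension with group `G` and suppose that all irreducible characters of
`G` are orthogonal, for example `G` a symmetric group, a Weyl group, or `SL₂`, `Sp₂ₙ` over a field
with `2 ^ k` elements. Artin's holomorphy conjecture is not known for `F/ℚ`. Known are the following
properties near `s = 1/2` of the functions `L χ = L(s, χ, F/ℚ)` (`χ` an irreducible character of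
`G`) and `Lin H ψ`, the Hecke L-functions of the linear characters `ψ` of the subgroups `H` of `G`
(`Lin H 1` is the Dedekind zeta function of `F^H`); they are listed in `CentralData G`.

* `Pool.Agent.H541R3.ART.ArtinData G (1/2)` (starting files): `L χ` is meromorphic and not
  identically zero near `1/2` (Brauer), `Lin H ψ` has no pole at `1/2` (Artin reciprocity and
  Hecke), `Lin H ψ` is the product of the `L χ ^ ⟨χ|_H, ψ⟩` (induction);
* `orthogonal`: the root number of an orthogonal character is `+1` (Fröhlich-Queyranne), and by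
  the functional equation the order of its L-function at `1/2` is even;
* `zeta`: `ζ(1/2) ≠ 0`.

Let `r` be the order of `ζ_F` at `1/2`. We show:

* (1) `r` is even, and every theorem saying that no `L(s, χ)` has a pole at a point where the order
  of `ζ_F` is less than `t` which is proved with the Heilbronn function of the orders extends at
  `s = 1/2` to orders less than `2 t`.
* (2) If `r ≤ 5`, then `r = 0` and all `L(1/2, χ)` are finite and nonzero; or `r = 2` and `L(s, λ)` has
  a double zero for one quadratic character `λ`, the others being finite and nonzero; or `r = 4` and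
  one of the following holds: (a) the zeros come from two quadratic characters (double zeros) or
  from one of them (a zero of order four); (b) `L(s, χ₀)` has a double zero for one irreducible
  character `χ₀` of degree two, vanishing outside a subgroup of index two; (c) there is a
  subgroup `U` of `G` with a quotient isomorphic to the quaternion group of order eight, whose
  symplectic character has over `F^U` an L-function with a zero of order exactly two at `1/2` (it is
  `Lin T ψ`, `T` the preimage of the cyclic subgroup of order four and `ψ` its character of order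
  four). In (a) and (b) the other `L(1/2, χ)` are finite and nonzero.

So if `G` has no quaternion section and `r ≤ 5`, then statement (ii) holds for all irreducible
characters of degree at least three.

The proof: the orders are even, so that the class function `θ` of the orders is twice a virtual
character, which has again multiplicities in `ℕ` at the linear characters of subgroups; in (2) it
has degree at most two, and the classification of the functions of degree two
(helper389, `R389`) applies.
-/

set_option autoImplicit false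
set_option linter.unusedSectionVars false

namespace Pool.Agent.Results.MP_3b6604_nt.TotallyOrthogonal

open Pool.Agent.H302R2 Pool.Agent.H541R3.ART Pool.Agent.W446.AS Pool.Agent.R362
  Pool.Agent.R362.CT Filter Topology

/-- Functions with the known properties near the central point `1/2` of the Artin L-functions of a
Galois extension of `ℚ` with group `G`. -/
structure CentralData (G : Type) [Group G] extends ArtinData G (1 / 2 : ℂ) where
  /-- the root number of an orthogonal character is `+1`: even order at `1/2` -/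
  orthogonal : ∀ χ ∈ Irr G, ∑ᶠ g : G, χ (g * g) = (Nat.card G : ℂ) → ∀ n : ℤ,
    meromorphicOrderAt (L χ) (1 / 2) = (n : WithTop ℤ) → Even n
  /-- `ζ(1/2) ≠ 0` -/
  zeta : meromorphicOrderAt (L fun _ => 1) (1 / 2) = 0

/-- A linear character as a function. -/
def lin {G : Type} [Group G] (ψ : G →* ℂˣ) (g : G) : ℂ := ((ψ g : ℂˣ) : ℂ)

/-- Every integral combination `∑ n χ • χ` of the irreducible characters which is a Heilbronn
function (multiplicities in `ℕ` at the linear characters of subgroups) of degree less than `t` has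
nonnegative coefficients: the group-theoretic statement behind: no `L(s, χ)` has a pole at a point
where the order of `ζ_F` is less than `t`. -/
def Threshold (G : Type) [Group G] [Finite G] (t : ℕ) : Prop :=
  ∀ n : (G → ℂ) → ℤ, IsHeilbronn (theta n : G → ℂ) → ∀ d : ℕ, (theta n : G → ℂ) 1 = d → d < t →
    ∀ χ ∈ Irr G, 0 ≤ n χ

/-- **Central zeros for totally orthogonal groups.** -/
theorem result (G : Type) [Group G] [Finite G]
    (hG : ∀ χ ∈ Irr G, ∑ᶠ g : G, χ (g * g) = (Nat.card G : ℂ)) (A : CentralData G) (r : ℕ)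
    (hr : meromorphicOrderAt (A.Lin ⊥ 1) (1 / 2) = (r : WithTop ℤ)) :
    -- (1)
    Even r ∧
    (∀ t : ℕ, Threshold G t → r < 2 * t → ∀ χ ∈ Irr G, 0 ≤ meromorphicOrderAt (A.L χ) (1 / 2)) ∧
    -- (2)
    (r ≤ 5 →
      (r = 0 ∧ ∀ χ ∈ Irr G, meromorphicOrderAt (A.L χ) (1 / 2) = 0) ∨
      (r = 2 ∧ ∃ l : G →* ℂˣ, l ≠ 1 ∧ l * l = 1 ∧ meromorphicOrderAt (A.L (lin l)) (1 / 2) = 2 ∧
        ∀ χ ∈ Irr G, χ ≠ lin l → meromorphicOrderAt (A.L χ) (1 / 2) = 0) ∨
      (r = 4 ∧
        ((∃ l m : G →* ℂˣ, l ≠ 1 ∧ m ≠ 1 ∧ l * l = 1 ∧ m * m = 1 ∧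
            (l ≠ m → meromorphicOrderAt (A.L (lin l)) (1 / 2) = 2 ∧
              meromorphicOrderAt (A.L (lin m)) (1 / 2) = 2) ∧
            (l = m → meromorphicOrderAt (A.L (lin l)) (1 / 2) = 4) ∧
            ∀ χ ∈ Irr G, χ ≠ lin l → χ ≠ lin m → meromorphicOrderAt (A.L χ) (1 / 2) = 0) ∨
         (∃ χ₀ ∈ Irr G, χ₀ 1 = 2 ∧ (∃ N : Subgroup G, N.index = 2 ∧ ∀ g, g ∉ N → χ₀ g = 0) ∧
            meromorphicOrderAt (A.L χ₀) (1 / 2) = 2 ∧
            ∀ χ ∈ Irr G, χ ≠ χ₀ → meromorphicOrderAt (A.L χ) (1 / 2) = 0) ∨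
         (∃ (U : Subgroup G) (f : U →* QuaternionGroup 2) (T : Subgroup G) (hTU : T ≤ U)
            (ψ : T →* ℂˣ), Function.Surjective f ∧
            (∀ u : U, (u : G) ∈ T ↔ f u ∈ Subgroup.zpowers (QuaternionGroup.a 1)) ∧
            (∀ t : T, f ⟨t, hTU t.2⟩ = QuaternionGroup.a 1 → ((ψ t : ℂˣ) : ℂ) = Complex.I) ∧
            meromorphicOrderAt (A.Lin T ψ) (1 / 2) = 2)))) := by
  classical
  have : Fintype G := Fintype.ofFinite G
  have hGc : (Nat.card G : ℂ) ≠ 0 := card_ne
  have hone := A.toArtinData.theta_one hr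
  -- half of the orders
  let m : (G → ℂ) → ℤ := fun χ => A.toArtinData.ord χ / 2
  have hm : ∀ χ ∈ Irr G, A.toArtinData.ord χ = 2 * m χ := by
    intro χ hχ
    have h1 : meromorphicOrderAt (A.L χ) (1 / 2) = ((A.toArtinData.ord χ : ℤ) : WithTop ℤ) :=
      (WithTop.coe_untop₀_of_ne_top (A.mero χ hχ).2).symm
    have h2 := A.orthogonal χ hχ (hG χ hχ) _ h1
    exact (Int.two_mul_ediv_two_of_even h2).symm
  have hθ2 : ∀ g : G, (theta A.toArtinData.ord : G → ℂ) g = 2 * (theta m : G → ℂ) g := by
    intro g
    change ∑ χ ∈ irrF G, (A.toArtinData.ord χ : ℂ) * χ g = 2 * ∑ χ ∈ irrF G, (m χ : ℂ) * χ g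
    rw [Finset.mul_sum]
    refine Finset.sum_congr rfl fun χ hχ => ?_
    rw [hm χ (mem_irrF.mp hχ)]
    push_cast
    ring
  have hord : ∀ χ ∈ Irr G, meromorphicOrderAt (A.L χ) (1 / 2) = ((2 * m χ : ℤ) : WithTop ℤ) := by
    intro χ hχ
    rw [← hm χ hχ]
    exact (WithTop.coe_untop₀_of_ne_top (A.mero χ hχ).2).symm
  -- multiplicities
  have hmul : ∀ (H : Subgroup G) (ψ : H →* ℂˣ), ∃ k : ℕ,
      ∑ᶠ h : H, (theta m : G → ℂ) h * (((ψ h)⁻¹ : ℂˣ) : ℂ) = (k : ℂ) * (Nat.card H : ℂ) ∧
      meromorphicOrderAt (A.Lin H ψ) (1 / 2) = ((2 * k : ℤ) : WithTop ℤ) := by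
    intro H ψ
    choose! c hc using fun χ (hχ : χ ∈ Irr G) => exists_mult hχ H ψ
    have h1 := theta_mult m H ψ c hc
    have h2 := A.toArtinData.order_Lin H ψ c hc
    have h3 : ∑ χ ∈ irrF G, (c χ : ℤ) * A.toArtinData.ord χ
        = 2 * ∑ χ ∈ irrF G, (c χ : ℤ) * m χ := by
      rw [Finset.mul_sum]
      exact Finset.sum_congr rfl fun χ hχ => by rw [hm χ (mem_irrF.mp hχ)]; ring
    rw [h3] at h2
    have h4 : (0 : WithTop ℤ) ≤ ((2 * ∑ χ ∈ irrF G, (c χ : ℤ) * m χ : ℤ) : WithTop ℤ) := by
      rw [← h2]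
      exact A.hecke H ψ
    have h5 : 0 ≤ 2 * ∑ χ ∈ irrF G, (c χ : ℤ) * m χ := by exact_mod_cast h4
    have h6 : 0 ≤ ∑ χ ∈ irrF G, (c χ : ℤ) * m χ := by omega
    obtain ⟨k, hk⟩ := Int.eq_ofNat_of_zero_le h6
    refine ⟨k, ?_, ?_⟩
    · rw [h1, hk]
      simp
    · rw [h2, hk]
  have hθ : IsHeilbronn (theta m : G → ℂ) :=
    ⟨(theta_virt m).conj, fun H ψ => by
      obtain ⟨k, hk, -⟩ := hmul H ψ
      exact ⟨k, hk⟩⟩
  obtain ⟨d, hd⟩ := hθ.exists_deg
  have hrd : r = 2 * d := by
    have h1 := hθ2 1
    rw [hone, hd] at h1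
    have h2 : ((r : ℕ) : ℂ) = ((2 * d : ℕ) : ℂ) := by
      rw [h1]
      push_cast
      ring
    exact_mod_cast h2
  refine ⟨⟨d, by omega⟩, ?_, ?_⟩
  · intro t ht hrt χ hχ
    have h1 := ht m hθ d hd (by omega) χ hχ
    rw [hord χ hχ]
    have h2 : 0 ≤ 2 * m χ := by omega
    exact_mod_cast h2
  intro hr5
  have hmz : ∀ χ ∈ Irr G, ∑ g : G, (theta m : G → ℂ) g * χ g⁻¹ = 0 →
      meromorphicOrderAt (A.L χ) (1 / 2) = 0 := by
    intro χ hχ h1
    rw [theta_pair m hχ] at h1
    have h2 : m χ = 0 := by
      rcases mul_eq_zero.mp h1 with h3 | h3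
      · exact_mod_cast h3
      · exact absurd h3 hGc
    rw [hord χ hχ, h2]
    rfl
  have hmk : ∀ χ ∈ Irr G, ∀ k : ℤ, ∑ g : G, (theta m : G → ℂ) g * χ g⁻¹ = (k : ℂ) * Nat.card G →
      meromorphicOrderAt (A.L χ) (1 / 2) = ((2 * k : ℤ) : WithTop ℤ) := by
    intro χ hχ k h1
    rw [theta_pair m hχ] at h1
    have h2 := mul_right_cancel₀ hGc h1
    have h3 : m χ = k := by exact_mod_cast h2
    rw [hord χ hχ, h3]
  have hlI : ∀ l : G →* ℂˣ, lin l ∈ Irr G := fun l => Pool.Agent.TH820.lin_irr l
  have hlone : lin (1 : G →* ℂˣ) = fun _ => (1 : ℂ) := by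
    funext g
    simp [lin]
  have hinj : ∀ a b : G →* ℂˣ, lin a = lin b → a = b := by
    intro a b h
    ext g
    exact congrFun h g
  -- linear characters are quadratic
  have hquad : ∀ l : G →* ℂˣ, l * l = 1 := by
    intro l
    by_contra hne
    obtain ⟨g₀, hg₀⟩ : ∃ g₀, (l * l) g₀ ≠ 1 := by
      by_contra hcon
      push Not at hcon
      exact hne (MonoidHom.ext hcon)
    have h1 := hG (lin l) (hlI l)
    have h2 : ∀ g : G, lin l (g * g) = (((l * l) g : ℂˣ) : ℂ) := by
      intro g
      unfold lin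
      rw [map_mul, MonoidHom.mul_apply]
    rw [finsum_congr h2, sum_zpowers_eq_zero _ hg₀] at h1
    exact hGc h1.symm
  have hd3 : d = 0 ∨ d = 1 ∨ d = 2 := by omega
  rcases hd3 with rfl | rfl | rfl
  · left
    refine ⟨by omega, fun χ hχ => hmz χ hχ (Finset.sum_eq_zero fun g _ => ?_)⟩
    have h4 := hθ.norm_le g
    rw [hd, Nat.cast_zero, Complex.zero_re] at h4
    rw [norm_le_zero_iff.mp h4, zero_mul]
  · right; left
    refine ⟨by omega, ?_⟩
    obtain ⟨l, hl⟩ := hθ.deg_one (by rw [hd, Nat.cast_one])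
    have hl' : ∀ χ : G → ℂ, ∑ g : G, (theta m : G → ℂ) g * χ g⁻¹ = ∑ g : G, lin l g * χ g⁻¹ :=
      fun χ => Finset.sum_congr rfl fun g _ => by rw [hl g]; rfl
    have h2 : meromorphicOrderAt (A.L (lin l)) (1 / 2) = 2 := by
      have h3 := hmk (lin l) (hlI l) 1 (by
        rw [hl', pair_self (hlI l)]
        push_cast
        ring)
      exact_mod_cast h3
    refine ⟨l, ?_, hquad l, h2, ?_⟩
    · rintro rfl
      rw [hlone, A.zeta] at h2
      exact absurd h2 (by decide)
    · intro χ hχ hne
      exact hmz χ hχ (by rw [hl', pair_ne (hlI l) hχ (Ne.symm hne)])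
  · right; right
    refine ⟨by omega, ?_⟩
    rw [Nat.cast_ofNat] at hd
    by_cases hQF : QF (theta m : G → ℂ)
    swap
    · right; right
      unfold QF at hQF
      push Not at hQF
      obtain ⟨U, f, hf, hθf⟩ := hQF
      obtain ⟨T, hTU, ψ, hmem, hI, hψ⟩ := quat_case f hf hθf
      refine ⟨U, f, T, hTU, ψ, hf, hmem, hI, ?_⟩
      obtain ⟨k, hk, hk2⟩ := hmul T ψ
      rw [hψ] at hk
      have h3 := mul_right_cancel₀ (card_ne (G := T)) hk
      have h4 : k = 1 := by exact_mod_cast h3.symm
      rw [hk2, h4]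
      rfl
    rcases Pool.Agent.R389.classify hθ hd hQF with ⟨l, u, hlu⟩ | ⟨N, a, b, himp, hab⟩
    · left
      have hpair : ∀ χ : G → ℂ, ∑ g : G, (theta m : G → ℂ) g * χ g⁻¹
          = ∑ g : G, lin l g * χ g⁻¹ + ∑ g : G, lin u g * χ g⁻¹ := by
        intro χ
        rw [← Finset.sum_add_distrib]
        refine Finset.sum_congr rfl fun g _ => ?_
        rw [hlu g, add_mul]
        rfl
      have hz1 : meromorphicOrderAt (A.L (lin (1 : G →* ℂˣ))) (1 / 2) = 0 := by
        rw [hlone]
        exact A.zeta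
      have hz2 : m (lin (1 : G →* ℂˣ)) = 0 := by
        have h3 := hord _ (hlI 1)
        rw [hz1] at h3
        have h4 : (0 : ℤ) = 2 * m (lin (1 : G →* ℂˣ)) := by exact_mod_cast h3
        omega
      have hp1 : ∑ g : G, lin l g * lin (1 : G →* ℂˣ) g⁻¹
          + ∑ g : G, lin u g * lin (1 : G →* ℂˣ) g⁻¹ = 0 := by
        rw [← hpair, theta_pair m (hlI 1), hz2, Int.cast_zero, zero_mul]
      have hl1 : l ≠ 1 := by
        rintro rfl
        rw [pair_self (hlI 1)] at hp1
        by_cases hu : u = 1
        · subst hu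
          rw [pair_self (hlI 1)] at hp1
          apply hGc
          linear_combination hp1 / 2
        · rw [pair_ne (hlI u) (hlI 1) (fun h => hu (hinj _ _ h)), add_zero] at hp1
          exact hGc hp1
      have hu1 : u ≠ 1 := by
        rintro rfl
        rw [pair_self (hlI 1), pair_ne (hlI l) (hlI 1) (fun h => hl1 (hinj _ _ h)),
          zero_add] at hp1
        exact hGc hp1
      refine ⟨l, u, hl1, hu1, hquad l, hquad u, ?_, ?_, ?_⟩
      · intro hne
        have hne' : lin l ≠ lin u := fun h => hne (hinj _ _ h)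
        constructor
        · have h3 := hmk (lin l) (hlI l) 1 (by
            rw [hpair, pair_self (hlI l), pair_ne (hlI u) (hlI l) hne'.symm]
            push_cast
            ring)
          exact_mod_cast h3
        · have h3 := hmk (lin u) (hlI u) 1 (by
            rw [hpair, pair_self (hlI u), pair_ne (hlI l) (hlI u) hne']
            push_cast
            ring)
          exact_mod_cast h3
      · rintro rfl
        have h3 := hmk (lin l) (hlI l) 2 (by
          rw [hpair, pair_self (hlI l)]
          push_cast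
          ring)
        exact_mod_cast h3
      · intro χ hχ h3 h4
        exact hmz χ hχ (by
          rw [hpair, pair_ne (hlI l) hχ (Ne.symm h3), pair_ne (hlI u) hχ (Ne.symm h4), add_zero])
    · right; left
      have hI := theta_irr m hd (imp_norm himp hab)
      refine ⟨_, hI, hd, ⟨N, imp_index himp, himp.off⟩, ?_, ?_⟩
      · have h3 := hmk _ hI 1 (by
          rw [pair_self hI]
          push_cast
          ring)
        exact_mod_cast h3
      · intro χ hχ hne
        exact hmz χ hχ (by rw [pair_ne hI hχ (Ne.symm hne)])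

end Pool.Agent.Results.MP_3b6604_nt.TotallyOrthogonal
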